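import Mathlib
import Pool.Agent.Q101.Box

/-!
# MP_625351_al, Q2: a congruence box space of `ℤ ≀ ℤ` which fails `D_α` for every `α`
-/

set_option autoImplicit false

namespace Pool.Agent.Results.MP_625351_al.NoPowerDiameter

open LaurentPolynomial Pool.Agent.Q101.Box

/-- The moduli. -/
def N (k : ℕ) : ℕ := 2 ^ (k + 1)

theorem N_ge (k : ℕ) : 2 ≤ N k := by
  unfold N
  calc 2 = 2 ^ 1 := rfl
    _ ≤ 2 ^ (k + 1) := Nat.pow_le_pow_right (by norm_num) (by omega)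

theorem N_gt (k : ℕ) : k < N k := by
  unfold N
  have := @Nat.lt_two_pow_self (k + 1)
  omega

/-- The ideals. -/
noncomputable def I (k : ℕ) : Ideal A := Ideal.span {C ((N k : ℕ) : ℤ), T ((N k : ℕ) : ℤ) - 1}

theorem C_mem (k : ℕ) : (C ((N k : ℕ) : ℤ) : A) ∈ I k :=
  Ideal.subset_span (Or.inl rfl)

theorem T_mem (k : ℕ) : (T ((N k : ℕ) : ℤ) - 1 : A) ∈ I k :=
  Ideal.subset_span (Or.inr rfl)

theorem I_anti : Antitone I := by
  apply antitone_nat_of_succ_le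
  intro k
  unfold I
  rw [Ideal.span_le]
  have hN : N (k + 1) = N k * 2 := by unfold N; rw [pow_succ]
  intro x hx
  rcases hx with rfl | rfl
  · show (C ((N (k + 1) : ℕ) : ℤ) : A) ∈ I k
    rw [hN, Nat.cast_mul, map_mul]
    exact (I k).mul_mem_right _ (C_mem k)
  · show (T ((N (k + 1) : ℕ) : ℤ) - 1 : A) ∈ I k
    have : (T ((N (k + 1) : ℕ) : ℤ) - 1 : A) =
        (T ((N k : ℕ) : ℤ) + 1) * (T ((N k : ℕ) : ℤ) - 1) := by
      rw [hN, Nat.cast_mul]
      have h2 : (((N k : ℕ) : ℤ) * ((2 : ℕ) : ℤ)) = ((N k : ℕ) : ℤ) + ((N k : ℕ) : ℤ) := by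
        push_cast; ring
      rw [h2, T_add]
      ring
    rw [this]
    exact (I k).mul_mem_left _ (T_mem k)

/-- The monic polynomial `X ^ N - 1` modulo `N`. -/
noncomputable def f (k : ℕ) : Polynomial (ZMod (N k)) := Polynomial.X ^ (N k) - 1

theorem root_pow (k : ℕ) : (AdjoinRoot.root (f k)) ^ (N k) = 1 := by
  have h := AdjoinRoot.eval₂_root (f k)
  unfold f at h
  rw [Polynomial.eval₂_sub, Polynomial.eval₂_X_pow, Polynomial.eval₂_one, sub_eq_zero] at h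
  exact h

/-- The image of `X`, as a unit. -/
noncomputable def u (k : ℕ) : (AdjoinRoot (f k))ˣ :=
  Units.ofPowEqOne (AdjoinRoot.root (f k)) (N k) (root_pow k) (by have := N_ge k; omega)

/-- The reduction modulo the `k`-th ideal. -/
noncomputable def ev (k : ℕ) : A →+* AdjoinRoot (f k) :=
  LaurentPolynomial.eval₂ ((AdjoinRoot.of (f k)).comp (Int.castRingHom (ZMod (N k)))) (u k)

theorem ev_toLaurent (k : ℕ) (Q : Polynomial ℤ) :
    ev k (Polynomial.toLaurent Q) = AdjoinRoot.mk (f k) (Q.map (Int.castRingHom (ZMod (N k)))) := by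
  unfold ev
  rw [eval₂_toLaurent, ← AdjoinRoot.aeval_eq, Polynomial.aeval_def, Polynomial.eval₂_map]
  rfl

theorem I_le (k : ℕ) : I k ≤ RingHom.ker (ev k) := by
  unfold I
  rw [Ideal.span_le]
  intro x hx
  rcases hx with rfl | rfl
  · show (C ((N k : ℕ) : ℤ) : A) ∈ RingHom.ker (ev k)
    rw [RingHom.mem_ker, ← Polynomial.toLaurent_C, ev_toLaurent, Polynomial.map_C]
    simp
  · show (T ((N k : ℕ) : ℤ) - 1 : A) ∈ RingHom.ker (ev k)
    rw [RingHom.mem_ker]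
    have : (T ((N k : ℕ) : ℤ) - 1 : A) = Polynomial.toLaurent (Polynomial.X ^ (N k) - 1) := by
      rw [map_sub, Polynomial.toLaurent_X_pow, map_one]
    rw [this, ev_toLaurent, Polynomial.map_sub, Polynomial.map_pow, Polynomial.map_X,
      Polynomial.map_one]
    exact AdjoinRoot.mk_self

theorem key (k : ℕ) (Q : Polynomial ℤ) (hd : Q.natDegree < N k) (h : Polynomial.toLaurent Q ∈ I k)
    (i : ℕ) : ((N k : ℕ) : ℤ) ∣ Q.coeff i := by
  have h1 := I_le k h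
  rw [RingHom.mem_ker, ev_toLaurent, AdjoinRoot.mk_eq_zero] at h1
  have : Fact (1 < N k) := ⟨N_ge k⟩
  have : Nontrivial (ZMod (N k)) := ZMod.nontrivial (N k)
  have hmonic : (f k).Monic := Polynomial.monic_X_pow_sub_C 1 (by have := N_ge k; omega)
  have hdeg : (f k).natDegree = N k := Polynomial.natDegree_X_pow_sub_C (r := 1)
  have h2 : Q.map (Int.castRingHom (ZMod (N k))) = 0 := by
    by_contra h3
    apply hmonic.not_dvd_of_natDegree_lt h3 _ h1
    rw [hdeg]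
    exact lt_of_le_of_lt Polynomial.natDegree_map_le hd
  have h3 := congrArg (fun p => Polynomial.coeff p i) h2
  simp only [Polynomial.coeff_map, Polynomial.coeff_zero] at h3
  exact (ZMod.intCast_zmod_eq_zero_iff_dvd _ _).1 h3

theorem I_inter (P : A) (hP : ∀ k, P ∈ I k) : P = 0 := by
  obtain ⟨j, Q, hQ⟩ := LaurentPolynomial.exists_T_pow P
  have hQ0 : Q = 0 := by
    ext i
    rw [Polynomial.coeff_zero]
    obtain ⟨k, hk⟩ : ∃ k, k = max Q.natDegree (Q.coeff i).natAbs := ⟨_, rfl⟩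
    have hk1 : Q.natDegree ≤ k := hk ▸ le_max_left _ _
    have hk2 : (Q.coeff i).natAbs ≤ k := hk ▸ le_max_right _ _
    have h1 : Polynomial.toLaurent Q ∈ I k := by
      rw [hQ]
      exact (I k).mul_mem_right _ (hP k)
    have h2 := key k Q (lt_of_le_of_lt hk1 (N_gt k)) h1 i
    apply Int.eq_zero_of_abs_lt_dvd h2
    have := N_gt k
    rw [Int.abs_eq_natAbs]
    omega
  rw [hQ0, map_zero] at hQ
  exact (IsUnit.mul_left_eq_zero (isUnit_T (j : ℤ))).1 hQ.symm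

theorem T_mul_mem (k : ℕ) (q : ℤ) : (T (((N k : ℕ) : ℤ) * q) - 1 : A) ∈ I k := by
  have hnat : ∀ q : ℕ, (T (((N k : ℕ) : ℤ) * q) - 1 : A) ∈ I k := by
    intro q
    induction q with
    | zero => simp
    | succ q ih =>
      have : (T (((N k : ℕ) : ℤ) * ((q + 1 : ℕ) : ℤ)) - 1 : A) =
          T ((N k : ℕ) : ℤ) * (T (((N k : ℕ) : ℤ) * q) - 1) + (T ((N k : ℕ) : ℤ) - 1) := by
        rw [mul_sub, ← T_add, mul_one, sub_add_sub_cancel]
        congr 2
        push_cast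
        ring
      rw [this]
      exact (I k).add_mem ((I k).mul_mem_left _ ih) (T_mem k)
  rcases Int.le_total 0 q with h | h
  · obtain ⟨n, rfl⟩ := Int.eq_ofNat_of_zero_le h
    exact hnat n
  · obtain ⟨n, hn⟩ := Int.eq_ofNat_of_zero_le (neg_nonneg.2 h)
    obtain rfl : q = -(n : ℤ) := by omega
    have h1 : (T (((N k : ℕ) : ℤ) * -(n : ℤ)) - 1 : A) =
        -(T (((N k : ℕ) : ℤ) * -(n : ℤ)) * (T (((N k : ℕ) : ℤ) * n) - 1)) := by
      rw [mul_sub, ← T_add, mul_neg, neg_add_cancel, T_zero]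
      ring
    rw [h1]
    exact (I k).neg_mem ((I k).mul_mem_left _ (hnat n))

/-- Every element is congruent to a small one. -/
theorem rep (k : ℕ) (P : A) : ∃ c : ℕ → ℕ, (∀ i, c i < N k) ∧
    P - ∑ i ∈ Finset.range (N k), C ((c i : ℕ) : ℤ) * T ((i : ℕ) : ℤ) ∈ I k := by
  have hN := N_ge k
  induction P using LaurentPolynomial.induction_on' with
  | add P Q hP hQ =>
    obtain ⟨c, hc, hc2⟩ := hP
    obtain ⟨d, hd, hd2⟩ := hQ
    refine ⟨fun i => (c i + d i) % N k, fun i => Nat.mod_lt _ (by omega), ?_⟩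
    have h1 : (P + Q - ∑ i ∈ Finset.range (N k), C (((c i + d i) % N k : ℕ) : ℤ) * T ((i : ℕ) : ℤ) : A) =
        (P - ∑ i ∈ Finset.range (N k), C ((c i : ℕ) : ℤ) * T ((i : ℕ) : ℤ)) +
        (Q - ∑ i ∈ Finset.range (N k), C ((d i : ℕ) : ℤ) * T ((i : ℕ) : ℤ)) +
        ∑ i ∈ Finset.range (N k), C ((N k : ℕ) : ℤ) * (C (((c i + d i) / N k : ℕ) : ℤ) * T ((i : ℕ) : ℤ)) := by
      have h2 : ∀ i, (C (((c i + d i) % N k : ℕ) : ℤ) * T ((i : ℕ) : ℤ) : A) =
          C ((c i : ℕ) : ℤ) * T ((i : ℕ) : ℤ) + C ((d i : ℕ) : ℤ) * T ((i : ℕ) : ℤ) -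
          C ((N k : ℕ) : ℤ) * (C (((c i + d i) / N k : ℕ) : ℤ) * T ((i : ℕ) : ℤ)) := by
        intro i
        have h3 : (((c i + d i) % N k : ℕ) : ℤ) = (c i : ℤ) + (d i : ℤ) -
            ((N k : ℕ) : ℤ) * (((c i + d i) / N k : ℕ) : ℤ) := by
          have := Nat.div_add_mod (c i + d i) (N k)
          zify at this
          push_cast
          linarith
        rw [h3, map_sub, map_add, map_mul]
        ring
      rw [Finset.sum_congr rfl (fun i _ => h2 i), Finset.sum_sub_distrib, Finset.sum_add_distrib]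
      ring
    show (P + Q - ∑ i ∈ Finset.range (N k), C (((c i + d i) % N k : ℕ) : ℤ) * T ((i : ℕ) : ℤ) : A) ∈ I k
    rw [h1]
    exact (I k).add_mem ((I k).add_mem hc2 hd2)
      ((I k).sum_mem fun i _ => (I k).mul_mem_right _ (C_mem k))
  | C_mul_T n a =>
    have hN0 : (0 : ℤ) < ((N k : ℕ) : ℤ) := by omega
    obtain ⟨r, hr⟩ := Int.eq_ofNat_of_zero_le (Int.emod_nonneg n hN0.ne')
    obtain ⟨b, hb⟩ := Int.eq_ofNat_of_zero_le (Int.emod_nonneg a hN0.ne')
    have hrN : r < N k := by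
      have := Int.emod_lt_of_pos n hN0
      omega
    have hbN : b < N k := by
      have := Int.emod_lt_of_pos a hN0
      omega
    refine ⟨fun i => if i = r then b else 0, fun i => ?_, ?_⟩
    · dsimp only
      split_ifs
      · exact hbN
      · omega
    · have h1 : (∑ i ∈ Finset.range (N k), C (((if i = r then b else 0 : ℕ)) : ℤ) * T ((i : ℕ) : ℤ) : A) =
          C ((b : ℕ) : ℤ) * T ((r : ℕ) : ℤ) := by
        rw [Finset.sum_eq_single r]
        · rw [if_pos rfl]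
        · intro i _ hi
          rw [if_neg hi]
          simp
        · intro h
          exact absurd (Finset.mem_range.2 hrN) h
      show (C a * T n - ∑ i ∈ Finset.range (N k), C (((if i = r then b else 0 : ℕ)) : ℤ) * T ((i : ℕ) : ℤ) : A) ∈ I k
      rw [h1]
      have hn : n = ((N k : ℕ) : ℤ) * (n / ((N k : ℕ) : ℤ)) + r := by
        have := Int.mul_ediv_add_emod n ((N k : ℕ) : ℤ)
        omega
      have ha : a = ((N k : ℕ) : ℤ) * (a / ((N k : ℕ) : ℤ)) + b := by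
        have := Int.mul_ediv_add_emod a ((N k : ℕ) : ℤ)
        omega
      have h2 : (C a * T n - C ((b : ℕ) : ℤ) * T ((r : ℕ) : ℤ) : A) =
          C a * T ((r : ℕ) : ℤ) * (T (((N k : ℕ) : ℤ) * (n / ((N k : ℕ) : ℤ))) - 1) +
          C ((N k : ℕ) : ℤ) * (C (a / ((N k : ℕ) : ℤ)) * T ((r : ℕ) : ℤ)) := by
        have h3 : (T n : A) = T ((r : ℕ) : ℤ) * T (((N k : ℕ) : ℤ) * (n / ((N k : ℕ) : ℤ))) := by
          rw [← T_add]
          congr 1
          omega
        have h4 : (C a : A) = C ((N k : ℕ) : ℤ) * C (a / ((N k : ℕ) : ℤ)) + C ((b : ℕ) : ℤ) := by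
          rw [← map_mul, ← map_add, ← ha]
        rw [h3]
        have h5 : (C a * (T ((r : ℕ) : ℤ) * T (((N k : ℕ) : ℤ) * (n / ((N k : ℕ) : ℤ)))) -
            C ((b : ℕ) : ℤ) * T ((r : ℕ) : ℤ) : A) =
            C a * T ((r : ℕ) : ℤ) * (T (((N k : ℕ) : ℤ) * (n / ((N k : ℕ) : ℤ))) - 1) +
            (C a - C ((b : ℕ) : ℤ)) * T ((r : ℕ) : ℤ) := by ring
        rw [h5, h4]
        ring
      rw [h2]
      exact (I k).add_mem ((I k).mul_mem_left _ (T_mul_mem k _)) ((I k).mul_mem_right _ (C_mem k))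

theorem finite_quot (k : ℕ) : Finite (A ⧸ I k) := by
  apply Finite.of_surjective (fun c : Fin (N k) → Fin (N k) =>
    Ideal.Quotient.mk (I k) (∑ i : Fin (N k), C (((c i : ℕ)) : ℤ) * T ((i : ℕ) : ℤ)))
  intro x
  obtain ⟨P, rfl⟩ := Ideal.Quotient.mk_surjective x
  obtain ⟨c, hc, hc2⟩ := rep k P
  refine ⟨fun i => ⟨c i, hc i⟩, ?_⟩
  rw [eq_comm, Ideal.Quotient.eq]
  rw [Finset.sum_range] at hc2
  exact hc2

theorem filtration : CongruenceFiltration I :=
  filtration_of_iInf I_anti finite_quot I_inter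

/-- The polynomial with coefficients `1` on a set. -/
noncomputable def Qs {n : ℕ} (s : Finset (Fin n)) : Polynomial ℤ := ∑ i ∈ s, Polynomial.X ^ (i : ℕ)

theorem Qs_coeff {n : ℕ} (s : Finset (Fin n)) (i : Fin n) :
    (Qs s).coeff i = if i ∈ s then 1 else 0 := by
  unfold Qs
  rw [Polynomial.finsetSum_coeff]
  simp only [Polynomial.coeff_X_pow, Fin.val_inj]
  rw [Finset.sum_ite_eq]

theorem Qs_deg {n : ℕ} (hn : 0 < n) (s : Finset (Fin n)) : (Qs s).natDegree < n := by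
  unfold Qs
  have : (∑ i ∈ s, Polynomial.X ^ (i : ℕ) : Polynomial ℤ).natDegree ≤ n - 1 := by
    apply Polynomial.natDegree_sum_le_of_forall_le
    intro i _
    rw [Polynomial.natDegree_X_pow]
    have := i.2
    omega
  omega

theorem card_ge (k : ℕ) : 2 ^ (N k) ≤ Nat.card (ZwrZ ⧸ congr (I k)) := by
  have hfin := finite_quot k
  obtain ⟨hfin2, _⟩ := card_quot_le (I k)
  have h1 : Nat.card (Finset (Fin (N k))) = 2 ^ (N k) := by
    rw [Nat.card_eq_fintype_card, Fintype.card_finset, Fintype.card_fin]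
  rw [← h1]
  apply Nat.card_le_card_of_injective (fun s : Finset (Fin (N k)) =>
    ((⟨0, Polynomial.toLaurent (Qs s)⟩ : ZwrZ) : ZwrZ ⧸ congr (I k)))
  intro s t hst
  have h2 := (mem_congr.1 (QuotientGroup.eq.1 hst)).2
  rw [ZwrZ.mul_P, ZwrZ.inv_P, ZwrZ.inv_n] at h2
  simp only [neg_zero, T_zero, one_mul] at h2
  rw [neg_add_eq_sub, ← map_sub] at h2
  have hN := N_ge k
  have hd : (Qs t - Qs s).natDegree < N k :=
    lt_of_le_of_lt (Polynomial.natDegree_sub_le _ _)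
      (max_lt (Qs_deg (by omega) t) (Qs_deg (by omega) s))
  ext i
  have h3 := key k _ hd h2 i
  rw [Polynomial.coeff_sub, Qs_coeff, Qs_coeff] at h3
  have h4 := Int.eq_zero_of_abs_lt_dvd h3
  by_cases hs : i ∈ s <;> by_cases ht : i ∈ t
  · simp [hs, ht]
  · exfalso
    rw [if_pos hs, if_neg ht] at h4
    have := h4 (by rw [show |(0 : ℤ) - 1| = 1 from rfl]; omega)
    omega
  · exfalso
    rw [if_neg hs, if_pos ht] at h4
    have := h4 (by rw [show |(1 : ℤ) - 0| = 1 from rfl]; omega)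
    omega
  · simp [hs, ht]

/-- Elements which are words of length at most `L`. -/
def W (S : Finset ZwrZ) (L : ℕ) (g : ZwrZ) : Prop :=
  ∃ l : List ZwrZ, (∀ a ∈ l, a ∈ S ∨ a⁻¹ ∈ S) ∧ l.prod = g ∧ l.length ≤ L

theorem W_one {S : Finset ZwrZ} : W S 0 1 := ⟨[], by simp, rfl, by simp⟩

theorem W_mul {S : Finset ZwrZ} {L M : ℕ} {g h : ZwrZ} (hg : W S L g) (hh : W S M h) :
    W S (L + M) (g * h) := by
  obtain ⟨l, h1, h2, h3⟩ := hg
  obtain ⟨l', h1', h2', h3'⟩ := hh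
  refine ⟨l ++ l', ?_, by rw [List.prod_append, h2, h2'], by rw [List.length_append]; omega⟩
  intro a ha
  rcases List.mem_append.1 ha with h | h
  · exact h1 a h
  · exact h1' a h

theorem W_pow {S : Finset ZwrZ} {L : ℕ} {g : ZwrZ} (hg : W S L g) (n : ℕ) : W S (n * L) (g ^ n) := by
  induction n with
  | zero => rw [zero_mul, pow_zero]; exact W_one
  | succ n ih =>
    rw [pow_succ, Nat.succ_mul]
    exact W_mul ih hg

theorem W_mono {S : Finset ZwrZ} {L M : ℕ} {g : ZwrZ} (hg : W S L g) (h : L ≤ M) : W S M g := by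
  obtain ⟨l, h1, h2, h3⟩ := hg
  exact ⟨l, h1, h2, h3.trans h⟩

theorem x_pow (c : ℕ) : (⟨0, 1⟩ : ZwrZ) ^ c = ⟨0, C ((c : ℕ) : ℤ)⟩ := by
  induction c with
  | zero =>
    rw [pow_zero]
    ext1
    · rfl
    · rw [ZwrZ.one_P]
      simp
  | succ c ih =>
    rw [pow_succ, ih]
    ext1
    · rw [ZwrZ.mul_n]; rfl
    · rw [ZwrZ.mul_P]
      simp

theorem t_pow (c : ℕ) : (⟨1, 0⟩ : ZwrZ) ^ c = ⟨((c : ℕ) : ℤ), 0⟩ := by
  induction c with
  | zero =>
    rw [pow_zero]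
    rfl
  | succ c ih =>
    rw [pow_succ, ih]
    ext1
    · rw [ZwrZ.mul_n]; push_cast; rfl
    · rw [ZwrZ.mul_P]
      simp

theorem diam_le {S : Finset ZwrZ} (hS : Subgroup.closure (S : Set ZwrZ) = ⊤) :
    ∃ L : ℕ, ∀ k, quotDiam S (I k) ≤ L * N k ^ 2 := by
  obtain ⟨lx, hx1, hx2⟩ := exists_word hS (⟨0, 1⟩ : ZwrZ)
  obtain ⟨lt, ht1, ht2⟩ := exists_word hS (⟨1, 0⟩ : ZwrZ)
  obtain ⟨L, hL⟩ : ∃ L, L = max lx.length lt.length := ⟨_, rfl⟩
  have hx : W S L ⟨0, 1⟩ := ⟨lx, hx1, hx2, hL ▸ le_max_left _ _⟩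
  have ht : W S L ⟨1, 0⟩ := ⟨lt, ht1, ht2, hL ▸ le_max_right _ _⟩
  refine ⟨3 * L, fun k => quotDiam_le fun g => ?_⟩
  have hN := N_ge k
  obtain ⟨c, hc, hc2⟩ := rep k g.P
  have hstep : ∀ j : ℕ, W S (j * (N k * L + L))
      ⟨((j : ℕ) : ℤ), ∑ i ∈ Finset.range j, C ((c i : ℕ) : ℤ) * T ((i : ℕ) : ℤ)⟩ := by
    intro j
    induction j with
    | zero =>
      rw [zero_mul]
      exact W_one
    | succ j ih =>
      have h1 := W_mul (W_mul ih (W_pow hx (c j))) ht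
      have h2 : (⟨((j : ℕ) : ℤ), ∑ i ∈ Finset.range j, C ((c i : ℕ) : ℤ) * T ((i : ℕ) : ℤ)⟩ : ZwrZ) *
          ⟨0, 1⟩ ^ (c j) * ⟨1, 0⟩ =
          ⟨((j + 1 : ℕ) : ℤ), ∑ i ∈ Finset.range (j + 1), C ((c i : ℕ) : ℤ) * T ((i : ℕ) : ℤ)⟩ := by
        rw [x_pow]
        ext1
        · rw [ZwrZ.mul_n, ZwrZ.mul_n]; push_cast; ring
        · rw [ZwrZ.mul_P, ZwrZ.mul_P, Finset.sum_range_succ]
          dsimp only
          ring
      rw [h2] at h1
      apply W_mono h1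
      have := Nat.mul_le_mul_right L (hc j).le
      rw [Nat.succ_mul]
      omega
  have hN0 : (0 : ℤ) < ((N k : ℕ) : ℤ) := by omega
  obtain ⟨r, hr⟩ := Int.eq_ofNat_of_zero_le (Int.emod_nonneg g.n hN0.ne')
  have hrN : r < N k := by
    have := Int.emod_lt_of_pos g.n hN0
    omega
  obtain ⟨l, hl1, hl2, hl3⟩ := W_mul (hstep (N k)) (W_pow ht r)
  refine ⟨l, hl1, ?_, ?_⟩
  · rw [hl2, t_pow, mem_congr]
    constructor
    · rw [ZwrZ.mul_n, ZwrZ.mul_n, ZwrZ.inv_n]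
      dsimp only
      have : -g.n + (((N k : ℕ) : ℤ) + (r : ℤ)) = ((N k : ℕ) : ℤ) * (1 - g.n / ((N k : ℕ) : ℤ)) := by
        have := Int.mul_ediv_add_emod g.n ((N k : ℕ) : ℤ)
        rw [mul_sub, mul_one]
        omega
      rw [this]
      exact T_mul_mem k _
    · rw [ZwrZ.mul_P, ZwrZ.mul_P, ZwrZ.inv_P, ZwrZ.inv_n]
      dsimp only
      rw [mul_zero, add_zero]
      have : (-(T (-g.n) * g.P) + T (-g.n) * ∑ i ∈ Finset.range (N k), C ((c i : ℕ) : ℤ) * T ((i : ℕ) : ℤ) : A) =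
          -(T (-g.n) * (g.P - ∑ i ∈ Finset.range (N k), C ((c i : ℕ) : ℤ) * T ((i : ℕ) : ℤ))) := by
        ring
      rw [this]
      exact (I k).neg_mem ((I k).mul_mem_left _ hc2)
  · refine hl3.trans ?_
    have h1 : r * L ≤ N k * L := Nat.mul_le_mul_right _ hrN.le
    have h2 : N k * L ≤ N k ^ 2 * L := by
      apply Nat.mul_le_mul_right
      rw [pow_two]
      exact Nat.le_mul_of_pos_left _ (by omega)
    calc N k * (N k * L + L) + r * L ≤ N k ^ 2 * L + N k * L + N k * L := by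
          rw [mul_add, ← mul_assoc, ← pow_two]; omega
      _ ≤ 3 * L * N k ^ 2 := by
          have : 3 * L * N k ^ 2 = N k ^ 2 * L + N k ^ 2 * L + N k ^ 2 * L := by ring
          omega

/-- There are ideals defining a congruence box space of `G = ℤ ≀ ℤ` which fails property `D_α`
for every `α ∈ (0, 1]` with respect to every finite generating set. -/
theorem result : ∃ I : ℕ → Ideal A, CongruenceFiltration I ∧
    ∀ S : Finset ZwrZ, Subgroup.closure (S : Set ZwrZ) = ⊤ →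
      ∀ α : ℝ, 0 < α → α ≤ 1 → ¬ PropertyD S I α := by
  refine ⟨I, filtration, fun S hS α hα _ hD => ?_⟩
  obtain ⟨K, hK, hKk⟩ := hD
  obtain ⟨L, hL⟩ := diam_le hS
  have hr : (1 : ℝ) < 2 ^ α := Real.one_lt_rpow (by norm_num) hα
  have htend := tendsto_pow_const_div_const_pow_of_one_lt 2 hr
  have hNt : Filter.Tendsto N Filter.atTop Filter.atTop :=
    Filter.tendsto_atTop_mono (fun k => (N_gt k).le) Filter.tendsto_id
  have h1 := htend.comp hNt
  have h2 : (0 : ℝ) < K / (L + 1) := by positivity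
  obtain ⟨k, hk⟩ := ((h1.eventually (gt_mem_nhds h2))).exists
  have h3 : ((N k : ℕ) : ℝ) ^ 2 / (2 ^ α) ^ (N k) < K / (L + 1) := hk
  have h4 : (0 : ℝ) < (2 ^ α) ^ (N k) := by positivity
  rw [div_lt_div_iff₀ h4 (by positivity)] at h3
  have h5 := hKk k
  have h6 : ((2 : ℝ) ^ α) ^ (N k) ≤ (Nat.card (ZwrZ ⧸ congr (I k)) : ℝ) ^ α := by
    have h7 : ((2 : ℝ) ^ (N k)) ≤ (Nat.card (ZwrZ ⧸ congr (I k)) : ℝ) := by
      exact_mod_cast card_ge k
    calc ((2 : ℝ) ^ α) ^ (N k) = ((2 : ℝ) ^ (N k)) ^ α := by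
          rw [← Real.rpow_natCast, ← Real.rpow_mul (by norm_num), mul_comm,
            Real.rpow_mul (by norm_num), Real.rpow_natCast]
      _ ≤ _ := Real.rpow_le_rpow (by positivity) h7 hα.le
  have h8 : (quotDiam S (I k) : ℝ) ≤ L * ((N k : ℕ) : ℝ) ^ 2 := by exact_mod_cast hL k
  have h9 : K * ((2 : ℝ) ^ α) ^ (N k) ≤ L * ((N k : ℕ) : ℝ) ^ 2 :=
    (mul_le_mul_of_nonneg_left h6 hK.le).trans (h5.trans h8)
  nlinarith [sq_nonneg ((N k : ℕ) : ℝ)]

end Pool.Agent.Results.MP_625351_al.NoPowerDiameter
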