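import Mathlib
import Pool.Agent.Q101.Box

/-!
# MP_625351_al, Q1: a congruence box space of `ℤ ≀ ℤ` with property `D_{1/2}`
-/

set_option autoImplicit false

namespace Pool.Agent.Results.MP_625351_al.SquareRootDiameter

open LaurentPolynomial Pool.Agent.Q101.Box

/-- The integers approximating a 3-adic transcendental unit. -/
def a : ℕ → ℕ
  | 0 => 4
  | k + 1 => a k + 3 ^ ((a k + k + 2) ^ (k + 2))

/-- The exponents. -/
def m (k : ℕ) : ℕ := (a k + k + 2) ^ (k + 2)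

theorem a_succ (k : ℕ) : a (k + 1) = a k + 3 ^ m k := rfl

theorem m_ge (k : ℕ) : 2 ≤ m k := by
  unfold m
  calc 2 ≤ a k + k + 2 := by omega
    _ = (a k + k + 2) ^ 1 := (pow_one _).symm
    _ ≤ (a k + k + 2) ^ (k + 2) := Nat.pow_le_pow_right (by omega) (by omega)

theorem a_lt (k : ℕ) : a k < a (k + 1) := by
  rw [a_succ]
  have : 0 < 3 ^ m k := by positivity
  omega

theorem a_mono : StrictMono a := strictMono_nat_of_lt_succ a_lt

theorem m_le (k : ℕ) : m k ≤ m (k + 1) := by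
  unfold m
  calc (a k + k + 2) ^ (k + 2) ≤ (a (k + 1) + (k + 1) + 2) ^ (k + 2) :=
        Nat.pow_le_pow_left (by have := a_lt k; omega) _
    _ ≤ (a (k + 1) + (k + 1) + 2) ^ (k + 1 + 2) := Nat.pow_le_pow_right (by omega) (by omega)

theorem a_mod (k : ℕ) : a k % 9 = 4 := by
  induction k with
  | zero => rfl
  | succ k ih =>
    rw [a_succ]
    obtain ⟨r, hr⟩ : ∃ r, m k = 2 + r := ⟨m k - 2, by have := m_ge k; omega⟩
    rw [hr, pow_add]
    omega

theorem a_coprime (k : ℕ) : Nat.Coprime (a k) (3 ^ m k) := by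
  apply Nat.Coprime.pow_right
  rw [Nat.coprime_comm, Nat.Prime.coprime_iff_not_dvd Nat.prime_three]
  have := a_mod k
  omega

/-- The residue of `a k`, as a unit. -/
noncomputable def u (k : ℕ) : (ZMod (3 ^ m k))ˣ := ZMod.unitOfCoprime (a k) (a_coprime k)

theorem u_val (k : ℕ) : ((u k : (ZMod (3 ^ m k))ˣ) : ZMod (3 ^ m k)) = (a k : ZMod (3 ^ m k)) :=
  ZMod.coe_unitOfCoprime _ _

/-- Evaluation at `a k` modulo `3 ^ m k`. -/
noncomputable def ev (k : ℕ) : A →+* ZMod (3 ^ m k) :=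
  LaurentPolynomial.eval₂ (Int.castRingHom _) (u k)

/-- The ideals. -/
noncomputable def I (k : ℕ) : Ideal A := RingHom.ker (ev k)

theorem mem_I {k : ℕ} {P : A} {j : ℕ} {Q : Polynomial ℤ} (h : Polynomial.toLaurent Q = P * T j) :
    P ∈ I k ↔ ((3 ^ m k : ℕ) : ℤ) ∣ Q.eval (a k : ℤ) := by
  have h1 : ev k (P * T j) = ev k P * (u k : ZMod (3 ^ m k)) ^ j := by
    rw [map_mul]
    congr 1
    exact eval₂_T_n _ _ _
  have h2 : ev k (Polynomial.toLaurent Q) = ((Q.eval (a k : ℤ) : ℤ) : ZMod (3 ^ m k)) := by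
    change eval₂ (Int.castRingHom _) (u k) (Polynomial.toLaurent Q) = _
    rw [eval₂_toLaurent, u_val]
    have h3 := Polynomial.hom_eval₂ Q (RingHom.id ℤ) (Int.castRingHom (ZMod (3 ^ m k))) (a k : ℤ)
    rw [Polynomial.eval₂_id] at h3
    rw [RingHom.comp_id] at h3
    simpa using h3.symm
  unfold I
  rw [RingHom.mem_ker, ← ZMod.intCast_zmod_eq_zero_iff_dvd, ← h2, h, h1]
  constructor
  · intro h3
    rw [h3, zero_mul]
  · intro h3
    exact (IsUnit.mul_left_eq_zero ((u k).isUnit.pow j)).1 h3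

theorem I_anti : Antitone I := by
  apply antitone_nat_of_succ_le
  intro k P hP
  obtain ⟨j, Q, hQ⟩ := LaurentPolynomial.exists_T_pow P
  rw [mem_I hQ] at hP ⊢
  have h1 : ((3 ^ m k : ℕ) : ℤ) ∣ ((3 ^ m (k + 1) : ℕ) : ℤ) :=
    Int.natCast_dvd_natCast.2 (pow_dvd_pow 3 (m_le k))
  have h2 : ((3 ^ m k : ℕ) : ℤ) ∣ Q.eval (a (k + 1) : ℤ) - Q.eval (a k : ℤ) := by
    have h3 := Polynomial.sub_dvd_eval_sub (a (k + 1) : ℤ) (a k : ℤ) Q
    have h4 : (a (k + 1) : ℤ) - (a k : ℤ) = ((3 ^ m k : ℕ) : ℤ) := by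
      rw [a_succ]; push_cast; ring
    rwa [h4] at h3
  have h3 := dvd_sub (h1.trans hP) h2
  rwa [sub_sub_cancel] at h3

theorem eval_bound (Q : Polynomial ℤ) (x : ℕ) (hx : 1 ≤ x) :
    |Q.eval (x : ℤ)| ≤ (∑ i ∈ Finset.range (Q.natDegree + 1), |Q.coeff i|) * (x : ℤ) ^ Q.natDegree := by
  rw [Polynomial.eval_eq_sum_range, Finset.sum_mul]
  refine (Finset.abs_sum_le_sum_abs _ _).trans (Finset.sum_le_sum fun i hi => ?_)
  rw [abs_mul, abs_pow, abs_of_nonneg (by positivity : (0 : ℤ) ≤ (x : ℤ))]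
  apply mul_le_mul_of_nonneg_left _ (abs_nonneg _)
  exact pow_le_pow_right₀ (by exact_mod_cast hx) (by
    rw [Finset.mem_range] at hi; omega)

theorem I_inter (P : A) (hP : ∀ k, P ∈ I k) : P = 0 := by
  obtain ⟨j, Q, hQ⟩ := LaurentPolynomial.exists_T_pow P
  have hQ0 : Q = 0 := by
    obtain ⟨B, hB⟩ : ∃ B : ℕ, (∑ i ∈ Finset.range (Q.natDegree + 1), |Q.coeff i|) = (B : ℤ) :=
      ⟨(∑ i ∈ Finset.range (Q.natDegree + 1), |Q.coeff i|).toNat,
        (Int.toNat_of_nonneg (Finset.sum_nonneg fun i _ => abs_nonneg _)).symm⟩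
    have hroot : ∀ k, max B Q.natDegree ≤ k → Q.IsRoot (a k : ℤ) := by
      intro k hk
      have h1 := (mem_I hQ).1 (hP k)
      have h2 := eval_bound Q (a k) (by have := a_mod k; omega)
      rw [hB] at h2
      have h3 : |Q.eval (a k : ℤ)| < ((3 ^ m k : ℕ) : ℤ) := by
        refine lt_of_le_of_lt h2 ?_
        have h4 : B * a k ^ Q.natDegree < 3 ^ m k := by
          have hB' : B ≤ k := (le_max_left _ _).trans hk
          have hd' : Q.natDegree ≤ k := (le_max_right _ _).trans hk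
          calc B * a k ^ Q.natDegree ≤ (a k + k + 2) * (a k + k + 2) ^ Q.natDegree :=
                Nat.mul_le_mul (by omega) (Nat.pow_le_pow_left (by omega) _)
            _ = (a k + k + 2) ^ (Q.natDegree + 1) := by rw [pow_succ]; ring
            _ ≤ (a k + k + 2) ^ (k + 2) := Nat.pow_le_pow_right (by omega) (by omega)
            _ = m k := rfl
            _ < 3 ^ m k := Nat.lt_pow_self (by norm_num)
        exact_mod_cast h4
      exact Int.eq_zero_of_abs_lt_dvd h1 h3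
    apply Polynomial.eq_zero_of_infinite_isRoot
    have hinj : Function.Injective (fun k : ℕ => (a (max B Q.natDegree + k) : ℤ)) := by
      intro x y hxy
      have hxy' : ((a (max B Q.natDegree + x) : ℕ) : ℤ) = ((a (max B Q.natDegree + y) : ℕ) : ℤ) := hxy
      have : a (max B Q.natDegree + x) = a (max B Q.natDegree + y) := by exact_mod_cast hxy'
      have := a_mono.injective this
      omega
    refine (Set.infinite_range_of_injective hinj).mono ?_
    rintro _ ⟨k, rfl⟩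
    exact hroot _ (Nat.le_add_right _ _)
  rw [hQ0, map_zero] at hQ
  exact (IsUnit.mul_left_eq_zero (isUnit_T (j : ℤ))).1 hQ.symm

theorem card_I (k : ℕ) : Finite (A ⧸ I k) ∧ Nat.card (A ⧸ I k) ≤ 3 ^ m k := by
  have h1 : Function.Injective (RingHom.kerLift (ev k)) := RingHom.kerLift_injective (ev k)
  have : NeZero (3 ^ m k) := ⟨by positivity⟩
  have hfin : Finite (A ⧸ I k) := Finite.of_injective (RingHom.kerLift (ev k)) h1
  refine ⟨hfin, ?_⟩
  have := Nat.card_le_card_of_injective (RingHom.kerLift (ev k)) h1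
  rwa [Nat.card_zmod] at this

theorem filtration : CongruenceFiltration I :=
  filtration_of_iInf I_anti (fun k => (card_I k).1) I_inter

/-- The order of the unit `a k` modulo `3 ^ m k`. -/
theorem dvd_order (k : ℕ) : 3 ^ (m k - 1) ∣ orderOf (u k) := by
  have hfin : NeZero (3 ^ m k) := ⟨by positivity⟩
  obtain ⟨o, ho⟩ : ∃ o, o = orderOf (u k) := ⟨_, rfl⟩
  have ho0 : o ≠ 0 := by rw [ho]; exact (orderOf_pos (u k)).ne'
  have h1 : (u k) ^ o = 1 := by rw [ho]; exact pow_orderOf_eq_one _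
  have h2 : ((a k : ℤ) ^ o - 1 : ℤ) = (a k : ℤ) ^ o - 1 ^ o := by rw [one_pow]
  have h3 : ((3 ^ m k : ℕ) : ℤ) ∣ (a k : ℤ) ^ o - 1 ^ o := by
    rw [← h2, ← ZMod.intCast_zmod_eq_zero_iff_dvd]
    push_cast
    have h4 := congrArg Units.val h1
    rw [Units.val_pow_eq_pow_val, u_val, Units.val_one] at h4
    rw [h4, sub_self]
  have h5 := Int.emultiplicity_pow_sub_pow (p := 3) Nat.prime_three (by decide)
    (x := (a k : ℤ)) (y := 1) (by have := a_mod k; omega) (by have := a_mod k; omega) o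
  have h6 : emultiplicity ((3 : ℕ) : ℤ) ((a k : ℤ) - 1) = 1 := by
    have := a_mod k
    rw [show (1 : ℕ∞) = ((1 : ℕ) : ℕ∞) from rfl, emultiplicity_eq_coe]
    constructor
    · rw [pow_one]; push_cast; omega
    · push_cast; omega
  have h7 : ((m k : ℕ) : ℕ∞) ≤ emultiplicity ((3 : ℕ) : ℤ) ((a k : ℤ) ^ o - 1 ^ o) := by
    apply le_emultiplicity_of_pow_dvd
    push_cast at h3 ⊢
    exact h3
  rw [h5, h6] at h7
  rw [← ho]
  apply pow_dvd_of_le_emultiplicity
  have hm := m_ge k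
  obtain ⟨r, hr⟩ : ∃ r, m k = r + 1 := ⟨m k - 1, by omega⟩
  rw [hr] at h7 ⊢
  rw [Nat.add_sub_cancel]
  push_cast at h7
  rw [add_comm (1 : ℕ∞)] at h7
  exact (ENat.add_le_add_iff_right ENat.one_ne_top).1 h7

theorem T_mem {k : ℕ} {z : ℤ} (h : (T z - 1 : A) ∈ I k) : ((3 ^ (m k - 1) : ℕ) : ℤ) ∣ z := by
  unfold I at h
  rw [RingHom.mem_ker, map_sub, map_one, sub_eq_zero] at h
  have h1 : ev k (T z) = ((u k) ^ z : (ZMod (3 ^ m k))ˣ) := eval₂_T _ _ _
  rw [h1] at h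
  have h2 : (u k) ^ z = 1 := Units.ext h
  have h3 := orderOf_dvd_iff_zpow_eq_one.2 h2
  exact (Int.natCast_dvd_natCast.2 (dvd_order k)).trans h3

theorem prod_n {S : Finset ZwrZ} {l : List ZwrZ} (hl : ∀ b ∈ l, b ∈ S ∨ b⁻¹ ∈ S) :
    (l.prod).n.natAbs ≤ (1 + S.sup (fun s => s.n.natAbs)) * l.length := by
  induction l with
  | nil => simp [ZwrZ.one_n]
  | cons b l ih =>
    have h1 := ih (fun c hc => hl c (List.mem_cons_of_mem _ hc))
    have h2 : b.n.natAbs ≤ 1 + S.sup (fun s => s.n.natAbs) := by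
      rcases hl b List.mem_cons_self with h | h
      · have := Finset.le_sup (f := fun s : ZwrZ => s.n.natAbs) h
        omega
      · have := Finset.le_sup (f := fun s : ZwrZ => s.n.natAbs) h
        simp only [ZwrZ.inv_n, Int.natAbs_neg] at this
        omega
    rw [List.prod_cons, ZwrZ.mul_n, List.length_cons, mul_add, mul_one]
    have := Int.natAbs_add_le b.n (l.prod).n
    omega

/-- There are ideals defining a congruence box space of `G = ℤ ≀ ℤ` which has property `D_{1/2}`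
with respect to every finite generating set. -/
theorem result : ∃ I : ℕ → Ideal A, CongruenceFiltration I ∧
    ∀ S : Finset ZwrZ, Subgroup.closure (S : Set ZwrZ) = ⊤ → PropertyD S I (1 / 2) := by
  refine ⟨I, filtration, fun S hS => ?_⟩
  obtain ⟨c, hc⟩ : ∃ c, c = 1 + S.sup (fun s => s.n.natAbs) := ⟨_, rfl⟩
  have hc0 : (0 : ℝ) < c := by rw [hc]; positivity
  refine ⟨1 / (9 * c), by positivity, fun k => ?_⟩
  have hfinI := (card_I k).1
  obtain ⟨hfin, hcard⟩ := card_quot_le (I k)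
  obtain ⟨M, hM⟩ : ∃ M, M = 3 ^ (m k - 1) := ⟨_, rfl⟩
  have hm := m_ge k
  have hM3 : 3 ≤ M := by
    rw [hM]
    calc 3 = 3 ^ 1 := rfl
      _ ≤ 3 ^ (m k - 1) := Nat.pow_le_pow_right (by norm_num) (by omega)
  have hMm : 3 ^ m k = 3 * M := by
    rw [hM, ← pow_succ']
    congr 1
    omega
  obtain ⟨j, hj⟩ : ∃ j, j = (M - 1) / 2 := ⟨_, rfl⟩
  have hMj : M ≤ 3 * j + 1 ∧ 2 * j + 1 ≤ M := by omega
  have hMj' : M ≤ 3 * j := by
    have hodd : M % 2 = 1 := by
      rw [hM]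
      exact Nat.odd_iff.1 (Odd.pow (by decide))
    omega
  -- the lower bound for the diameter
  have hlow : ⌈(j : ℝ) / c⌉₊ ≤ quotDiam S (I k) := by
    apply le_quotDiam hS (⟨(j : ℤ), 0⟩ : ZwrZ)
    intro l hl hmem
    rw [Nat.ceil_le, div_le_iff₀ hc0]
    have h1 := (mem_congr.1 hmem).1
    rw [ZwrZ.mul_n, ZwrZ.inv_n] at h1
    have h2 := T_mem h1
    rw [← hM] at h2
    have h3 := prod_n hl
    rw [← hc] at h3
    obtain ⟨z, hz⟩ : ∃ z, z = (l.prod).n := ⟨_, rfl⟩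
    rw [← hz] at h2 h3
    have h2' : (M : ℤ) ∣ -(j : ℤ) + z := h2
    have h4 : j ≤ z.natAbs := by
      obtain ⟨w, hw⟩ := h2'
      rcases lt_trichotomy w 0 with hw0 | hw0 | hw0
      · have : (M : ℤ) * w ≤ -M := by nlinarith
        omega
      · rw [hw0, mul_zero] at hw
        omega
      · have : (M : ℤ) ≤ (M : ℤ) * w := by nlinarith
        omega
    have h5 : j ≤ c * l.length := h4.trans h3
    have h6 : (j : ℝ) ≤ c * l.length := by exact_mod_cast h5
    linarith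
  have h1 : (j : ℝ) / c ≤ quotDiam S (I k) :=
    (Nat.le_ceil _).trans (by exact_mod_cast hlow)
  have h2 : (Nat.card (ZwrZ ⧸ congr (I k)) : ℝ) ^ (1 / 2 : ℝ) ≤ 3 ^ m k := by
    have h3 : (Nat.card (ZwrZ ⧸ congr (I k)) : ℝ) ≤ (3 ^ m k : ℝ) ^ (2 : ℕ) := by
      have h4 : Nat.card (ZwrZ ⧸ congr (I k)) ≤ (3 ^ m k) ^ 2 :=
        hcard.trans (Nat.pow_le_pow_left (card_I k).2 2)
      exact_mod_cast h4
    calc (Nat.card (ZwrZ ⧸ congr (I k)) : ℝ) ^ (1 / 2 : ℝ) ≤ ((3 ^ m k : ℝ) ^ (2 : ℕ)) ^ (1 / 2 : ℝ) :=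
          Real.rpow_le_rpow (by positivity) h3 (by norm_num)
      _ = 3 ^ m k := by
        rw [← Real.sqrt_eq_rpow, Real.sqrt_sq (by positivity)]
  have h3 : (3 : ℝ) ^ m k = 3 * M := by exact_mod_cast hMm
  have h4 : (M : ℝ) ≤ 3 * j := by exact_mod_cast hMj'
  calc 1 / (9 * (c : ℝ)) * (Nat.card (ZwrZ ⧸ congr (I k)) : ℝ) ^ (1 / 2 : ℝ)
      ≤ 1 / (9 * (c : ℝ)) * (3 * M) := by
        apply mul_le_mul_of_nonneg_left (h2.trans h3.le) (by positivity)
    _ ≤ 1 / (9 * (c : ℝ)) * (3 * (3 * j)) := by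
        apply mul_le_mul_of_nonneg_left _ (by positivity)
        linarith
    _ = (j : ℝ) / c := by field_simp; norm_num
    _ ≤ quotDiam S (I k) := h1

end Pool.Agent.Results.MP_625351_al.SquareRootDiameter
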